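import Mathlib

/-!
# The group `GL(2,3)` as a concrete structure, with the finite checks used for the
counterexample to Berman's conjecture on automorphisms of the centre of an integral group ring.
-/

set_option autoImplicit false

namespace Pool.Agent.Berman

/-- Invertible two by two matrices over the field with three elements. -/
@[ext] structure L where
  a : ZMod 3
  b : ZMod 3
  c : ZMod 3
  d : ZMod 3
  h : a * d - b * c ≠ 0
deriving DecidableEq

namespace L

instance fact3 : Fact (Nat.Prime 3) := ⟨by norm_num⟩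

/-- The determinant. -/
def det (x : L) : ZMod 3 := x.a * x.d - x.b * x.c

/-- The trace. -/
def tr (x : L) : ZMod 3 := x.a + x.d

lemma det_sq (x : ZMod 3) (hx : x ≠ 0) : x * x = 1 := by
  revert x; decide

instance : Mul L := ⟨fun x y =>
  ⟨x.a * y.a + x.b * y.c, x.a * y.b + x.b * y.d, x.c * y.a + x.d * y.c, x.c * y.b + x.d * y.d, by
    have h := mul_ne_zero x.h y.h
    intro h0
    apply h
    rw [← h0]
    ring⟩⟩

instance : One L := ⟨⟨1, 0, 0, 1, by decide⟩⟩

instance : Inv L := ⟨fun x =>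
  ⟨x.det * x.d, - (x.det * x.b), - (x.det * x.c), x.det * x.a, by
    have h := mul_ne_zero (mul_ne_zero x.h x.h) x.h
    intro h0
    apply h
    rw [← h0]
    unfold det
    ring⟩⟩

lemma mul_def (x y : L) : x * y =
  ⟨x.a * y.a + x.b * y.c, x.a * y.b + x.b * y.d, x.c * y.a + x.d * y.c, x.c * y.b + x.d * y.d,
    (x * y).h⟩ := rfl

@[simp] lemma mul_a (x y : L) : (x * y).a = x.a * y.a + x.b * y.c := rfl
@[simp] lemma mul_b (x y : L) : (x * y).b = x.a * y.b + x.b * y.d := rfl
@[simp] lemma mul_c (x y : L) : (x * y).c = x.c * y.a + x.d * y.c := rfl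
@[simp] lemma mul_d (x y : L) : (x * y).d = x.c * y.b + x.d * y.d := rfl
@[simp] lemma one_a : (1 : L).a = 1 := rfl
@[simp] lemma one_b : (1 : L).b = 0 := rfl
@[simp] lemma one_c : (1 : L).c = 0 := rfl
@[simp] lemma one_d : (1 : L).d = 1 := rfl
@[simp] lemma inv_a (x : L) : (x⁻¹).a = x.det * x.d := rfl
@[simp] lemma inv_b (x : L) : (x⁻¹).b = - (x.det * x.b) := rfl
@[simp] lemma inv_c (x : L) : (x⁻¹).c = - (x.det * x.c) := rfl
@[simp] lemma inv_d (x : L) : (x⁻¹).d = x.det * x.a := rfl

lemma det_mul_self (x : L) : x.det * x.det = 1 := det_sq _ x.h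

instance : Group L where
  mul_assoc x y w := by
    ext <;> simp <;> ring
  one_mul x := by ext <;> simp
  mul_one x := by ext <;> simp
  inv_mul_cancel x := by
    have h := det_mul_self x
    have h1 : x.det * (x.a * x.d - x.b * x.c) = 1 := h
    ext
    · simp only [mul_a, inv_a, inv_b, one_a]; linear_combination h1
    · simp only [mul_b, inv_a, inv_b, one_b]; ring
    · simp only [mul_c, inv_c, inv_d, one_c]; ring
    · simp only [mul_d, inv_c, inv_d, one_d]; linear_combination h1

/-- The quadruples of entries of nonzero determinant. -/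
def equivSub : {m : ZMod 3 × ZMod 3 × ZMod 3 × ZMod 3 //
    m.1 * m.2.2.2 - m.2.1 * m.2.2.1 ≠ 0} ≃ L where
  toFun m := ⟨m.1.1, m.1.2.1, m.1.2.2.1, m.1.2.2.2, m.2⟩
  invFun x := ⟨(x.a, x.b, x.c, x.d), x.h⟩
  left_inv _ := rfl
  right_inv _ := rfl

instance : Fintype L := Fintype.ofEquiv _ equivSub

/-- Minus the identity. -/
def z : L := ⟨2, 0, 0, 2, by decide⟩

/-- The parity (the sign of the determinant). -/
def par (x : L) : ZMod 2 := if x.det = 1 then 0 else 1

/-- The function detecting plus or minus the identity. -/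
def u (x : L) : ℤ := if x = 1 then 1 else if x = z then -1 else 0

/-- The function detecting elements of order six and three. -/
def w (x : L) : ℤ :=
  if x.det = 1 then
    (if x.tr = 1 ∧ x ≠ z then 1 else if x.tr = 2 ∧ x ≠ 1 then -1 else 0) else 0

/-- The function detecting elements of order eight. -/
def t (x : L) : ℤ :=
  if x.det = 1 then 0 else (if x.tr = 1 then 1 else if x.tr = 2 then -1 else 0)

/-- The value in `{1,-1,0}` of an element of the field with three elements. -/
def val3 (x : ZMod 3) : ℤ := if x = 1 then 1 else if x = 2 then -1 else 0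

/-- The signed function detecting the two classes of elements of order six of `SL(2,3)`. -/
def w' (x : L) : ℤ :=
  if x.det = 1 ∧ ((x.tr = 1 ∧ x ≠ z) ∨ (x.tr = 2 ∧ x ≠ 1)) then
    (if x.b = 0 then - val3 x.c else val3 x.b) else 0

/-- The eight elements of order six. -/
def cl : Fin 8 → L := ![⟨0,1,2,1, by decide⟩, ⟨0,2,1,1, by decide⟩, ⟨1,1,2,0, by decide⟩,
  ⟨1,2,1,0, by decide⟩, ⟨2,0,1,2, by decide⟩, ⟨2,0,2,2, by decide⟩, ⟨2,1,0,2, by decide⟩,
  ⟨2,2,0,2, by decide⟩]

/-- A chosen element of order six. -/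
def c0 : L := ⟨2, 1, 0, 2, by decide⟩

/-- A chosen element of order eight. -/
def x0 : L := ⟨0, 1, 1, 1, by decide⟩

lemma card_L : Fintype.card L = 48 := by decide +kernel

lemma sum_u : ∀ a : L, ∑ i, u (a * (cl i)⁻¹) = w a := by decide +kernel

lemma sum_w : ∀ a : L, ∑ i, w (a * (cl i)⁻¹) = 8 * u a + 2 * w a := by decide +kernel

lemma sum_t : ∀ a : L, ∑ i, t (a * (cl i)⁻¹) = 4 * t a := by decide +kernel

lemma sum_w' : ∀ a : L, ∑ i, w' (a * (cl i)⁻¹) = - 2 * w' a := by decide +kernel

lemma z_mul_z : z * z = 1 := by decide +kernel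

lemma z_ne_one : z ≠ 1 := by decide +kernel

lemma z_comm : ∀ a : L, z * a = a * z := by decide +kernel

lemma par_mul : ∀ a b : L, par (a * b) = par a + par b := by decide +kernel

lemma par_one : par 1 = 0 := by decide +kernel

lemma par_z : par z = 0 := by decide +kernel

lemma par_inv : ∀ a : L, par a⁻¹ = par a := by decide +kernel

lemma par_cl : ∀ i, par (cl i) = 0 := by decide +kernel

lemma par_c0 : par c0 = 0 := by decide +kernel

lemma par_cases : ∀ a : L, par a = 0 ∨ par a = 1 := by decide +kernel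

lemma u_z : ∀ a : L, u (z * a) = - u a := by decide +kernel

lemma w_z : ∀ a : L, w (z * a) = - w a := by decide +kernel

lemma u_one : u 1 = 1 := by decide +kernel

lemma w_one : w 1 = 0 := by decide +kernel

lemma u_c0 : u c0 = 0 := by decide +kernel

lemma w_c0 : w c0 = 1 := by decide +kernel

lemma w'_one : w' 1 = 0 := by decide +kernel

lemma t_one : t 1 = 0 := by decide +kernel

lemma t_c0 : t c0 = 0 := by decide +kernel

lemma u_odd : ∀ a : L, par a = 1 → u a = 0 := by decide +kernel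

lemma w_odd : ∀ a : L, par a = 1 → w a = 0 := by decide +kernel

lemma w'_odd : ∀ a : L, par a = 1 → w' a = 0 := by decide +kernel

lemma t_even : ∀ a : L, par a = 0 → t a = 0 := by decide +kernel

lemma u_conj : ∀ h a : L, u (h * a * h⁻¹) = u a := by decide +kernel

lemma w_conj : ∀ h a : L, w (h * a * h⁻¹) = w a := by decide +kernel

/-- Classification of the even elements up to conjugacy. -/
lemma even_cases : ∀ a : L, par a = 0 →
    (a = 1 ∧ u a = 1 ∧ w a = 0) ∨ (a = z * 1 ∧ u a = -1 ∧ w a = 0) ∨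
    (∃ h, h * a * h⁻¹ = c0 ∧ u a = 0 ∧ w a = 1) ∨
    (∃ h, h * a * h⁻¹ = z * c0 ∧ u a = 0 ∧ w a = -1) ∨
    (∃ h, h * a * h⁻¹ = z * a ∧ u a = 0 ∧ w a = 0) := by decide +kernel

/-- Classification of the odd elements up to conjugacy. -/
lemma odd_cases : ∀ a : L, par a = 1 →
    (∃ h, h * a * h⁻¹ = x0 ∧ t a = 1) ∨
    (∃ h, h * a * h⁻¹ = z * x0 ∧ t a = -1) ∨
    (∃ h, h * a * h⁻¹ = z * a ∧ t a = 0) := by decide +kernel

/-- Classification of the even elements up to signed conjugacy. -/
lemma even_cases' : ∀ a : L, par a = 0 →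
    (∃ h, par h = 0 ∧ h * a * h⁻¹ = c0 ∧ w' a = 1) ∨
    (∃ h, par h = 0 ∧ h * a * h⁻¹ = z * c0 ∧ w' a = -1) ∨
    (∃ h, par h = 0 ∧ h * a * h⁻¹ = z * a ∧ w' a = 0) ∨
    (∃ h, par h = 1 ∧ h * a * h⁻¹ = a ∧ w' a = 0) ∨
    (∃ h, par h = 1 ∧ h * a * h⁻¹ = c0 ∧ w' a = - 1) ∨
    (∃ h, par h = 1 ∧ h * a * h⁻¹ = z * c0 ∧ w' a = 1) := by decide +kernel

end L

end Pool.Agent.Berman
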