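import Mathlib
import Pool.Agent.Lib_helper30.Berman.LGroup

/-!
# The covering group of the counterexample, and its invariant functions
-/

set_option autoImplicit false

namespace Pool.Agent.Berman

open L

/-- The covering group: the graded square of `GL(2,3)` extended by two involutions. -/
@[ext] structure Gt where
  s : ZMod 2
  a : L
  b : L
  e : ZMod 2
  p : Bool
deriving DecidableEq

namespace Gt

instance : Mul Gt := ⟨fun g h =>
  match g.p with
  | false => ⟨g.s + h.s + par g.b * par h.a, g.a * h.a, g.b * h.b, g.e + h.e, h.p⟩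
  | true => ⟨g.s + h.s + par h.a * par h.b + h.e + par g.b * par h.b, g.a * h.b, g.b * h.a,
      g.e + h.e, !h.p⟩⟩

instance : One Gt := ⟨⟨0, 1, 1, 0, false⟩⟩

instance : Inv Gt := ⟨fun g =>
  match g.p with
  | false => ⟨g.s + par g.a * par g.b, g.a⁻¹, g.b⁻¹, g.e, false⟩
  | true => ⟨g.s + g.e, g.b⁻¹, g.a⁻¹, g.e, true⟩⟩

lemma mul_false (s s' : ZMod 2) (a b a' b' : L) (e e' : ZMod 2) (p' : Bool) :
    (⟨s, a, b, e, false⟩ : Gt) * ⟨s', a', b', e', p'⟩ =
      ⟨s + s' + par b * par a', a * a', b * b', e + e', p'⟩ := rfl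

lemma mul_true (s s' : ZMod 2) (a b a' b' : L) (e e' : ZMod 2) (p' : Bool) :
    (⟨s, a, b, e, true⟩ : Gt) * ⟨s', a', b', e', p'⟩ =
      ⟨s + s' + par a' * par b' + e' + par b * par b', a * b', b * a', e + e', !p'⟩ := rfl

lemma inv_false (s : ZMod 2) (a b : L) (e : ZMod 2) :
    (⟨s, a, b, e, false⟩ : Gt)⁻¹ = ⟨s + par a * par b, a⁻¹, b⁻¹, e, false⟩ := rfl

lemma inv_true (s : ZMod 2) (a b : L) (e : ZMod 2) :
    (⟨s, a, b, e, true⟩ : Gt)⁻¹ = ⟨s + e, b⁻¹, a⁻¹, e, true⟩ := rfl

lemma one_def : (1 : Gt) = ⟨0, 1, 1, 0, false⟩ := rfl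

lemma two_eq (x : ZMod 2) : x + x = 0 := CharTwo.add_self_eq_zero x

lemma sgn_assoc1 : ∀ s s' s'' b a' b' a'' : ZMod 2,
    s + s' + b * a' + s'' + (b + b') * a'' = s + (s' + s'' + b' * a'') + b * (a' + a'') := by
  decide

instance : Group Gt where
  mul_assoc x y w := by
    obtain ⟨s, a, b, e, p⟩ := x
    obtain ⟨s', a', b', e', p'⟩ := y
    obtain ⟨s'', a'', b'', e'', p''⟩ := w
    cases p <;> cases p' <;>
      simp only [mul_false, mul_true, par_mul, mul_assoc, add_assoc, Bool.not_true, Bool.not_false,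
        Bool.not_not, Gt.mk.injEq, and_true] <;>
      (have h2 : (2 : ZMod 2) = 0 := rfl
       generalize par a = A; generalize par b = B; generalize par a' = A'
       generalize par b' = B'; generalize par a'' = A''; generalize par b'' = B''
       clear a b a' b' a'' b''
       first
         | ring1
         | linear_combination (-(B' * A'')) * h2
         | linear_combination (-(B' * B'' + A'' * B'' + e'')) * h2)
  one_mul x := by
    obtain ⟨s, a, b, e, p⟩ := x
    simp [one_def, mul_false, par_one]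
  mul_one x := by
    obtain ⟨s, a, b, e, p⟩ := x
    cases p <;> simp [one_def, mul_false, mul_true, par_one]
  inv_mul_cancel x := by
    obtain ⟨s, a, b, e, p⟩ := x
    cases p <;> simp only [inv_false, inv_true, mul_false, mul_true, one_def, par_inv,
      inv_mul_cancel, two_eq, Bool.not_true, Gt.mk.injEq, and_true] <;>
      (generalize par a = A; generalize par b = B
       clear a b
       revert s e A B
       decide)

end Gt

end Pool.Agent.Berman
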