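import Mathlib
import Pool.Agent.Lib_helper30.Berman.GGroup

/-!
# Class functions of minus type on the covering group
-/

set_option autoImplicit false

namespace Pool.Agent.Berman

open L

/-- The sign of an element of `ZMod 2`. -/
def sg (s : ZMod 2) : ℤ := if s = 0 then 1 else -1

lemma sg_zero : sg 0 = 1 := rfl
lemma sg_one : sg 1 = -1 := rfl

lemma even_fun (F : L → ℤ) (hz : ∀ a, F (z * a) = - F a) (hc : ∀ h a, F (h * a * h⁻¹) = F a)
    (a : L) (ha : par a = 0) : F a = F 1 * u a + F c0 * w a := by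
  rcases even_cases a ha with ⟨h1, h2, h3⟩ | ⟨h1, h2, h3⟩ | ⟨h, h1, h2, h3⟩ | ⟨h, h1, h2, h3⟩ |
    ⟨h, h1, h2, h3⟩
  · rw [h2, h3, h1]; ring
  · rw [h2, h3, h1, hz]; ring
  · rw [h2, h3, ← hc h a, h1]; ring
  · rw [h2, h3, ← hc h a, h1, hz]; ring
  · have h4 := hc h a
    rw [h1, hz] at h4
    rw [h2, h3]
    linarith

lemma odd_fun (F : L → ℤ) (hz : ∀ a, F (z * a) = - F a) (hc : ∀ h a, F (h * a * h⁻¹) = F a)
    (a : L) (ha : par a = 1) : F a = F x0 * t a := by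
  rcases odd_cases a ha with ⟨h, h1, h2⟩ | ⟨h, h1, h2⟩ | ⟨h, h1, h2⟩
  · rw [h2, ← hc h a, h1]; ring
  · rw [h2, ← hc h a, h1, hz]; ring
  · have h4 := hc h a
    rw [h1, hz] at h4
    rw [h2]
    linarith

lemma even_fun' (F : L → ℤ) (hz : ∀ a, F (z * a) = - F a)
    (hc : ∀ h a, F (h * a * h⁻¹) = sg (par h) * F a)
    (a : L) (ha : par a = 0) : F a = F c0 * w' a := by
  rcases even_cases' a ha with ⟨h, h0, h1, h2⟩ | ⟨h, h0, h1, h2⟩ | ⟨h, h0, h1, h2⟩ |
    ⟨h, h0, h1, h2⟩ | ⟨h, h0, h1, h2⟩ | ⟨h, h0, h1, h2⟩ <;>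
    have h4 := hc h a <;> rw [h0] at h4 <;> rw [h1] at h4 <;>
    simp only [sg_zero, sg_one, hz] at h4 <;> rw [h2] <;> linarith

/-- The central element of order two. -/
def zeta : Gt := ⟨1, 1, 1, 0, false⟩

/-- The central element of the first factor. -/
def k1 : Gt := ⟨0, z, 1, 0, false⟩

/-- The central element of the second factor. -/
def k2 : Gt := ⟨0, 1, z, 0, false⟩

/-- A class function of minus type. -/
structure Good (F : Gt → ℤ) : Prop where
  comm : ∀ g h, F (g * h) = F (h * g)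
  neg : ∀ g, F (zeta * g) = - F g
  neg1 : ∀ g, F (k1 * g) = - F g
  neg2 : ∀ g, F (k2 * g) = - F g

lemma zeta_mul (s : ZMod 2) (a b : L) (e : ZMod 2) (p : Bool) :
    zeta * ⟨s, a, b, e, p⟩ = ⟨1 + s, a, b, e, p⟩ := by
  simp [zeta, Gt.mul_false, par_one]

lemma k1_mul (s : ZMod 2) (a b : L) (e : ZMod 2) (p : Bool) :
    k1 * ⟨s, a, b, e, p⟩ = ⟨s, z * a, b, e, p⟩ := by
  simp [k1, Gt.mul_false, par_one]

lemma k2_mul (s : ZMod 2) (a b : L) (e : ZMod 2) (p : Bool) :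
    k2 * ⟨s, a, b, e, p⟩ = ⟨s, a, z * b, e, p⟩ := by
  simp [k2, Gt.mul_false, par_z]

namespace Good

variable {F : Gt → ℤ} (hF : Good F)

include hF

lemma conj (g h : Gt) : F (h * g * h⁻¹) = F g := by
  rw [hF.comm, ← mul_assoc, inv_mul_cancel, one_mul]

lemma sgn (s : ZMod 2) (a b : L) (e : ZMod 2) (p : Bool) :
    F ⟨s, a, b, e, p⟩ = sg s * F ⟨0, a, b, e, p⟩ := by
  have h := hF.neg ⟨0, a, b, e, p⟩
  rw [zeta_mul, add_zero] at h
  have h2 : s = 0 ∨ s = 1 := by revert s; decide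
  rcases h2 with h2 | h2
  · rw [h2, sg_zero, one_mul]
  · rw [h2, sg_one, h]; ring

lemma za (s : ZMod 2) (a b : L) (e : ZMod 2) (p : Bool) :
    F ⟨s, z * a, b, e, p⟩ = - F ⟨s, a, b, e, p⟩ := by
  have h := hF.neg1 ⟨s, a, b, e, p⟩
  rwa [k1_mul] at h

lemma zb (s : ZMod 2) (a b : L) (e : ZMod 2) (p : Bool) :
    F ⟨s, a, z * b, e, p⟩ = - F ⟨s, a, b, e, p⟩ := by
  have h := hF.neg2 ⟨s, a, b, e, p⟩
  rwa [k2_mul] at h

lemma conjA (h a b : L) (e : ZMod 2) :
    F ⟨0, h * a * h⁻¹, b, e, false⟩ = sg (par b * par h) * F ⟨0, a, b, e, false⟩ := by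
  have h1 := hF.conj ⟨0, a, b, e, false⟩ ⟨0, h, 1, 0, false⟩
  rw [Gt.inv_false, Gt.mul_false, Gt.mul_false] at h1
  simp only [par_one, par_inv, mul_zero, zero_mul, add_zero, zero_add, one_mul, inv_one,
    mul_one] at h1
  rw [hF.sgn] at h1
  have h3 : ∀ s : ZMod 2, sg s * sg s = 1 := by decide
  rw [← h1, ← mul_assoc, h3, one_mul]

lemma conjB (k a b : L) (e : ZMod 2) :
    F ⟨0, a, k * b * k⁻¹, e, false⟩ = sg (par k * par a) * F ⟨0, a, b, e, false⟩ := by
  have h1 := hF.conj ⟨0, a, b, e, false⟩ ⟨0, 1, k, 0, false⟩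
  rw [Gt.inv_false, Gt.mul_false, Gt.mul_false] at h1
  simp only [par_one, mul_zero, zero_mul, add_zero, zero_add, one_mul, inv_one,
    mul_one] at h1
  rw [hF.sgn] at h1
  have h3 : ∀ s : ZMod 2, sg s * sg s = 1 := by decide
  rw [← h1, ← mul_assoc, h3, one_mul]

lemma conjPi (a b : L) (e : ZMod 2) :
    F ⟨0, b, a, e, false⟩ = sg (par a * par b + e) * F ⟨0, a, b, e, false⟩ := by
  have h1 := hF.conj ⟨0, a, b, e, false⟩ ⟨0, 1, 1, 0, true⟩
  rw [Gt.inv_true, Gt.mul_true, Bool.not_false, Gt.mul_true] at h1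
  simp only [par_one, mul_zero, zero_mul, add_zero, zero_add, one_mul, inv_one,
    mul_one, Bool.not_true] at h1
  rw [hF.sgn] at h1
  have h3 : ∀ s : ZMod 2, sg s * sg s = 1 := by decide
  rw [← h1, ← mul_assoc, h3, one_mul]

lemma eq_zero_true (s : ZMod 2) (a b : L) (e : ZMod 2) : F ⟨s, a, b, e, true⟩ = 0 := by
  have h1 := hF.conj ⟨0, a, b, e, true⟩ ⟨0, 1, 1, 1, false⟩
  rw [Gt.inv_false, Gt.mul_false, Gt.mul_true] at h1
  have h4 : ∀ e : ZMod 2, 1 + e + 1 = e := by decide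
  simp only [par_one, mul_zero, zero_mul, add_zero, zero_add, one_mul, inv_one,
    mul_one, h4, Bool.not_false] at h1
  rw [hF.sgn, sg_one] at h1
  rw [hF.sgn]
  have h2 : F ⟨0, a, b, e, true⟩ = 0 := by linarith
  rw [h2, mul_zero]

/-- The general formula for a class function of minus type. -/
lemma formula (a b : L) (e : ZMod 2) :
    F ⟨0, a, b, e, false⟩ =
      F ⟨0, 1, 1, e, false⟩ * (u a * u b) + F ⟨0, c0, 1, e, false⟩ * (w a * u b) +
      F ⟨0, 1, c0, e, false⟩ * (u a * w b) + F ⟨0, c0, c0, e, false⟩ * (w a * w b) +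
      F ⟨0, x0, c0, e, false⟩ * (t a * w' b) + F ⟨0, c0, x0, e, false⟩ * (w' a * t b) := by
  rcases par_cases a with ha | ha <;> rcases par_cases b with hb | hb
  · have hA : ∀ b, par b = 0 → ∀ a, par a = 0 → F ⟨0, a, b, e, false⟩ =
        F ⟨0, 1, b, e, false⟩ * u a + F ⟨0, c0, b, e, false⟩ * w a := by
      intro b hb a ha
      refine even_fun (fun a => F ⟨0, a, b, e, false⟩) (fun a => hF.za _ _ _ _ _) ?_ a ha
      intro h a
      show F ⟨0, h * a * h⁻¹, b, e, false⟩ = _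
      rw [hF.conjA, hb, zero_mul, sg_zero, one_mul]
    have hB : ∀ a, par a = 0 → ∀ b, par b = 0 → F ⟨0, a, b, e, false⟩ =
        F ⟨0, a, 1, e, false⟩ * u b + F ⟨0, a, c0, e, false⟩ * w b := by
      intro a ha b hb
      refine even_fun (fun b => F ⟨0, a, b, e, false⟩) (fun b => hF.zb _ _ _ _ _) ?_ b hb
      intro h b
      show F ⟨0, a, h * b * h⁻¹, e, false⟩ = _
      rw [hF.conjB, ha, mul_zero, sg_zero, one_mul]
    rw [hA b hb a ha, hB 1 par_one b hb, hB c0 par_c0 b hb, t_even a ha, t_even b hb]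
    ring
  · have hB : ∀ a, par a = 0 → ∀ b, par b = 1 → F ⟨0, a, b, e, false⟩ =
        F ⟨0, a, x0, e, false⟩ * t b := by
      intro a ha b hb
      refine odd_fun (fun b => F ⟨0, a, b, e, false⟩) (fun b => hF.zb _ _ _ _ _) ?_ b hb
      intro h b
      show F ⟨0, a, h * b * h⁻¹, e, false⟩ = _
      rw [hF.conjB, ha, mul_zero, sg_zero, one_mul]
    have hA : F ⟨0, a, x0, e, false⟩ = F ⟨0, c0, x0, e, false⟩ * w' a := by
      refine even_fun' (fun a => F ⟨0, a, x0, e, false⟩) (fun a => hF.za _ _ _ _ _) ?_ a ha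
      intro h a
      show F ⟨0, h * a * h⁻¹, x0, e, false⟩ = _
      rw [hF.conjA, show par x0 = 1 by decide +kernel, one_mul]
    rw [hB a ha b hb, hA, t_even a ha, u_odd b hb, w_odd b hb]
    ring
  · have hA : ∀ b, par b = 0 → ∀ a, par a = 1 → F ⟨0, a, b, e, false⟩ =
        F ⟨0, x0, b, e, false⟩ * t a := by
      intro b hb a ha
      refine odd_fun (fun a => F ⟨0, a, b, e, false⟩) (fun a => hF.za _ _ _ _ _) ?_ a ha
      intro h a
      show F ⟨0, h * a * h⁻¹, b, e, false⟩ = _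
      rw [hF.conjA, hb, zero_mul, sg_zero, one_mul]
    have hB : F ⟨0, x0, b, e, false⟩ = F ⟨0, x0, c0, e, false⟩ * w' b := by
      refine even_fun' (fun b => F ⟨0, x0, b, e, false⟩) (fun b => hF.zb _ _ _ _ _) ?_ b hb
      intro h b
      show F ⟨0, x0, h * b * h⁻¹, e, false⟩ = _
      rw [hF.conjB, show par x0 = 1 by decide +kernel, mul_one]
    rw [hA b hb a ha, hB, t_even b hb, u_odd a ha, w_odd a ha]
    ring
  · have h1 := hF.conjA a a b e
    rw [mul_inv_cancel_right, ha, hb, mul_one, sg_one] at h1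
    have h2 : F ⟨0, a, b, e, false⟩ = 0 := by linarith
    rw [h2, u_odd a ha, w_odd a ha, w'_odd a ha, w'_odd b hb]
    ring

lemma formula_zero (s : ZMod 2) (a b : L) :
    F ⟨s, a, b, 0, false⟩ = sg s * (
      F ⟨0, 1, 1, 0, false⟩ * (u a * u b) +
      F ⟨0, c0, 1, 0, false⟩ * (w a * u b + u a * w b) + F ⟨0, c0, c0, 0, false⟩ * (w a * w b) +
      F ⟨0, x0, c0, 0, false⟩ * (t a * w' b) + F ⟨0, c0, x0, 0, false⟩ * (w' a * t b)) := by
  rw [hF.sgn, hF.formula]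
  have h := hF.conjPi c0 1 0
  rw [par_c0, par_one, zero_mul, zero_add, sg_zero, one_mul] at h
  rw [h]
  ring

lemma formula_one (s : ZMod 2) (a b : L) :
    F ⟨s, a, b, 1, false⟩ = sg s * (
      F ⟨0, c0, 1, 1, false⟩ * (w a * u b - u a * w b) +
      F ⟨0, x0, c0, 1, false⟩ * (t a * w' b) + F ⟨0, c0, x0, 1, false⟩ * (w' a * t b)) := by
  rw [hF.sgn, hF.formula]
  have h := hF.conjPi c0 1 1
  rw [par_c0, par_one, zero_mul, zero_add, sg_one] at h
  have h1 := hF.conjPi 1 1 1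
  rw [par_one, zero_mul, zero_add, sg_one] at h1
  have h2 := hF.conjPi c0 c0 1
  rw [par_c0, zero_mul, zero_add, sg_one] at h2
  have h1' : F ⟨0, 1, 1, 1, false⟩ = 0 := by linarith
  have h2' : F ⟨0, c0, c0, 1, false⟩ = 0 := by linarith
  rw [h, h1', h2']
  ring

end Good

/-- The elements of order six in the first factor. -/
def kap1 (i : Fin 8) : Gt := ⟨0, cl i, 1, 0, false⟩

/-- The elements of order six in the second factor. -/
def kap2 (i : Fin 8) : Gt := ⟨0, 1, cl i, 0, false⟩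

/-- Multiplication by the element `S` on the level of functions. -/
def T (F : Gt → ℤ) (g : Gt) : ℤ :=
  (∑ i, F (g * (kap1 i)⁻¹) + ∑ i, F (g * (kap2 i)⁻¹)) - 2 * F g

/-- The function of the element `S`. -/
def sig1 (g : Gt) : ℤ :=
  if g.e = 0 ∧ g.p = false then
    sg g.s * (w g.a * u g.b + u g.a * w g.b - 2 * (u g.a * u g.b)) else 0

/-- The function of a quarter of the square of `S`. -/
def sig2 (g : Gt) : ℤ :=
  if g.e = 0 ∧ g.p = false then
    sg g.s * (10 * (u g.a * u g.b) + w g.a * w g.b - (w g.a * u g.b + u g.a * w g.b)) else 0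

/-- The functional `L`. -/
def Lf (F : Gt → ℤ) : ℤ := F ⟨0, c0, c0, 0, false⟩ + F ⟨0, c0, 1, 0, false⟩

/-- The functional `M`. -/
def Mf (F : Gt → ℤ) : ℤ :=
  F ⟨0, 1, 1, 0, false⟩ + 2 * F ⟨0, c0, 1, 0, false⟩ + 10 * F ⟨0, c0, c0, 0, false⟩

lemma mul_kap1_inv (s : ZMod 2) (a b : L) (e : ZMod 2) (i : Fin 8) :
    (⟨s, a, b, e, false⟩ : Gt) * (kap1 i)⁻¹ = ⟨s, a * (cl i)⁻¹, b, e, false⟩ := by
  rw [kap1, Gt.inv_false, Gt.mul_false]
  simp [par_inv, par_cl, par_one]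

lemma mul_kap2_inv (s : ZMod 2) (a b : L) (e : ZMod 2) (i : Fin 8) :
    (⟨s, a, b, e, false⟩ : Gt) * (kap2 i)⁻¹ = ⟨s, a, b * (cl i)⁻¹, e, false⟩ := by
  rw [kap2, Gt.inv_false, Gt.mul_false]
  simp [par_cl, par_one]

theorem T_formula {F : Gt → ℤ} (hF : Good F) (g : Gt) :
    T F g = Mf F * sig1 g + 2 * Lf F * sig2 g := by
  obtain ⟨s, a, b, e, p⟩ := g
  have hu := sum_u
  have hw := sum_w
  have ht := sum_t
  have hw' := sum_w'
  simp only [Fin.sum_univ_eight] at hu hw ht hw'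
  cases p
  · have he : e = 0 ∨ e = 1 := by revert e; decide
    rcases he with he | he
    · subst he
      have h0 := hF.formula_zero
      unfold T Mf Lf sig1 sig2
      generalize F ⟨0, 1, 1, 0, false⟩ = A11 at *
      generalize F ⟨0, c0, 1, 0, false⟩ = Ac1 at *
      generalize F ⟨0, c0, c0, 0, false⟩ = Acc at *
      generalize F ⟨0, x0, c0, 0, false⟩ = E1 at *
      generalize F ⟨0, c0, x0, 0, false⟩ = E2 at *
      simp only [mul_kap1_inv, mul_kap2_inv, h0, Fin.sum_univ_eight, and_self, if_true]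
      linear_combination sg s * ((A11 * u b + Ac1 * w b) * hu a + (Ac1 * u b + Acc * w b) * hw a
        + E1 * w' b * ht a + E2 * t b * hw' a + (A11 * u a + Ac1 * w a) * hu b
        + (Ac1 * u a + Acc * w a) * hw b + E1 * t a * hw' b + E2 * w' a * ht b)
    · subst he
      have h0 := hF.formula_one
      unfold T sig1 sig2
      generalize F ⟨0, c0, 1, 1, false⟩ = D at *
      generalize F ⟨0, x0, c0, 1, false⟩ = E1 at *
      generalize F ⟨0, c0, x0, 1, false⟩ = E2 at *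
      simp only [mul_kap1_inv, mul_kap2_inv, h0, Fin.sum_univ_eight, one_ne_zero, false_and,
        if_false]
      linear_combination sg s * (D * u b * hw a - D * w b * hu a + E1 * w' b * ht a
        + E2 * t b * hw' a + D * w a * hu b - D * u a * hw b + E1 * t a * hw' b
        + E2 * w' a * ht b)
  · have h1 : ∀ h : Gt, h.p = false → F ((⟨s, a, b, e, true⟩ : Gt) * h) = 0 := by
      intro h hp
      obtain ⟨s', a', b', e', p'⟩ := h
      simp only at hp
      subst hp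
      rw [Gt.mul_true]
      exact hF.eq_zero_true _ _ _ _
    unfold T
    have h2 : ∀ i, F ((⟨s, a, b, e, true⟩ : Gt) * (kap1 i)⁻¹) = 0 := fun i => h1 _ rfl
    have h3 : ∀ i, F ((⟨s, a, b, e, true⟩ : Gt) * (kap2 i)⁻¹) = 0 := fun i => h1 _ rfl
    simp only [h2, h3, hF.eq_zero_true, sig1, sig2]
    simp

end Pool.Agent.Berman
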