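import Mathlib
import Pool.Agent.Lib_helper30.Berman.GoodFun

/-!
# The group of order 4608 and the exotic automorphism of the centre of its integral group ring
-/

set_option autoImplicit false

namespace Pool.Agent.Berman

open L

lemma zeta_comm (g : Gt) : zeta * g = g * zeta := by
  obtain ⟨s, a, b, e, p⟩ := g
  have h : ∀ s : ZMod 2, 1 + s = s + 1 := by decide
  cases p <;> simp [zeta, Gt.mul_false, Gt.mul_true, par_one, h]

lemma zeta_mul_zeta : zeta * zeta = 1 := by decide +kernel

/-- The kernel. -/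
def K : Subgroup Gt where
  carrier := {1, zeta * k1, zeta * k2, k1 * k2}
  mul_mem' := by
    intro a b ha hb
    simp only [Set.mem_insert_iff, Set.mem_singleton_iff] at ha hb ⊢
    rcases ha with rfl | rfl | rfl | rfl <;> rcases hb with rfl | rfl | rfl | rfl <;>
      decide +kernel
  one_mem' := by simp
  inv_mem' := by
    intro a ha
    simp only [Set.mem_insert_iff, Set.mem_singleton_iff] at ha ⊢
    rcases ha with rfl | rfl | rfl | rfl <;> decide +kernel

lemma mem_K (g : Gt) : g ∈ K ↔ g = 1 ∨ g = zeta * k1 ∨ g = zeta * k2 ∨ g = k1 * k2 := by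
  show g ∈ ({1, zeta * k1, zeta * k2, k1 * k2} : Set Gt) ↔ _
  simp only [Set.mem_insert_iff, Set.mem_singleton_iff]

lemma k1_comm (s : ZMod 2) (a b : L) (e : ZMod 2) :
    (⟨s, a, b, e, false⟩ : Gt) * k1 = k1 * ⟨s, a, b, e, false⟩ := by
  simp [k1, Gt.mul_false, par_z, par_one, z_comm]

lemma k2_comm (s : ZMod 2) (a b : L) (e : ZMod 2) :
    (⟨s, a, b, e, false⟩ : Gt) * k2 = k2 * ⟨s, a, b, e, false⟩ := by
  simp [k2, Gt.mul_false, par_z, par_one, z_comm]

lemma k1_comm' (s : ZMod 2) (a b : L) (e : ZMod 2) :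
    (⟨s, a, b, e, true⟩ : Gt) * k1 = k2 * ⟨s, a, b, e, true⟩ := by
  simp [k1, k2, Gt.mul_false, Gt.mul_true, par_z, par_one, z_comm]

lemma k2_comm' (s : ZMod 2) (a b : L) (e : ZMod 2) :
    (⟨s, a, b, e, true⟩ : Gt) * k2 = k1 * ⟨s, a, b, e, true⟩ := by
  simp [k1, k2, Gt.mul_false, Gt.mul_true, par_z, par_one, z_comm]

lemma k12 : k1 * k2 = k2 * k1 := by decide +kernel

instance : K.Normal where
  conj_mem := by
    intro n hn g
    have key : ∃ n' ∈ K, g * n = n' * g := by
      rw [mem_K] at hn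
      obtain ⟨s, a, b, e, p⟩ := g
      cases p
      · refine ⟨n, (mem_K n).2 hn, ?_⟩
        rcases hn with rfl | rfl | rfl | rfl
        · rw [one_mul, mul_one]
        · rw [← mul_assoc, ← zeta_comm, mul_assoc, k1_comm, mul_assoc]
        · rw [← mul_assoc, ← zeta_comm, mul_assoc, k2_comm, mul_assoc]
        · rw [← mul_assoc, k1_comm, mul_assoc, k2_comm, mul_assoc]
      · rcases hn with rfl | rfl | rfl | rfl
        · exact ⟨1, K.one_mem, by rw [one_mul, mul_one]⟩
        · refine ⟨zeta * k2, (mem_K _).2 (by tauto), ?_⟩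
          rw [← mul_assoc, ← zeta_comm, mul_assoc, k1_comm', mul_assoc]
        · refine ⟨zeta * k1, (mem_K _).2 (by tauto), ?_⟩
          rw [← mul_assoc, ← zeta_comm, mul_assoc, k2_comm', mul_assoc]
        · refine ⟨k2 * k1, (mem_K _).2 (by rw [k12]; tauto), ?_⟩
          rw [← mul_assoc, k1_comm', mul_assoc, k2_comm', mul_assoc]
    obtain ⟨n', hn', h⟩ := key
    rw [h, mul_inv_cancel_right]
    exact hn'

/-- The group of order 4608. -/
abbrev G : Type := Gt ⧸ K

/-- The projection. -/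
def m : Gt →* G := QuotientGroup.mk' K

lemma m_surj (g : G) : ∃ h, m h = g := QuotientGroup.mk'_surjective K g

lemma m_eq_iff (g h : Gt) : m g = m h ↔ g⁻¹ * h ∈ K := QuotientGroup.eq

noncomputable instance : Fintype L := inferInstance

/-- The covering group is finite. -/
def equivGt : (ZMod 2 × L × L × ZMod 2 × Bool) ≃ Gt where
  toFun x := ⟨x.1, x.2.1, x.2.2.1, x.2.2.2.1, x.2.2.2.2⟩
  invFun g := (g.s, g.a, g.b, g.e, g.p)
  left_inv _ := rfl
  right_inv _ := rfl

instance : Finite Gt := Finite.of_equiv _ equivGt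

instance : Finite G := Quotient.finite _

noncomputable instance : Fintype G := Fintype.ofFinite G

open MonoidAlgebra

/-- The minus part of an element of the group ring, as a function on the covering group. -/
def mf (x : MonoidAlgebra ℤ G) (g : Gt) : ℤ := x.coeff (m g) - x.coeff (m (zeta * g))

lemma mem_center_iff (x : MonoidAlgebra ℤ G) :
    x ∈ Subring.center (MonoidAlgebra ℤ G) ↔ ∀ g h : G, x.coeff (g * h) = x.coeff (h * g) := by
  rw [Subring.mem_center_iff]
  constructor
  · intro hx g h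
    have h1 := congrArg (fun y : MonoidAlgebra ℤ G => y.coeff (g * h * g))
      (hx (MonoidAlgebra.single g 1))
    rw [MonoidAlgebra.coeff_single_mul_apply, MonoidAlgebra.coeff_mul_single_apply] at h1
    rw [one_mul, mul_one, mul_assoc g h g, inv_mul_cancel_left, ← mul_assoc,
      mul_inv_cancel_right] at h1
    exact h1.symm
  · intro hx y
    induction y using MonoidAlgebra.induction_linear with
    | zero => rw [zero_mul, mul_zero]
    | add a b ha hb => rw [add_mul, mul_add, ha, hb]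
    | single g r =>
      ext h
      rw [MonoidAlgebra.coeff_single_mul_apply, MonoidAlgebra.coeff_mul_single_apply, mul_comm, hx]

lemma good_mf (x : MonoidAlgebra ℤ G) (hx : x ∈ Subring.center (MonoidAlgebra ℤ G)) :
    Good (mf x) := by
  rw [mem_center_iff] at hx
  have hz : ∀ g, x.coeff (m (zeta * (zeta * g))) = x.coeff (m g) := by
    intro g
    rw [← mul_assoc, zeta_mul_zeta, one_mul]
  refine ⟨?_, ?_, ?_, ?_⟩
  · intro g h
    unfold mf
    rw [map_mul, hx, ← map_mul, ← mul_assoc, map_mul m (zeta * g) h, hx, ← map_mul, ← mul_assoc,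
      ← zeta_comm, mul_assoc]
  · intro g
    unfold mf
    rw [hz]
    ring
  · intro g
    unfold mf
    have h1 : m (k1 * g) = m (zeta * g) := by
      have h2 : m (zeta * k1) = 1 := by
        rw [← map_one m, eq_comm, m_eq_iff, mem_K]
        simp
      have h3 : k1 * g = zeta * (zeta * k1) * g := by
        rw [← mul_assoc zeta zeta k1, zeta_mul_zeta, one_mul]
      rw [h3, map_mul, map_mul, h2, mul_one, map_mul]
    have h4 : m (zeta * (k1 * g)) = m g := by
      rw [map_mul, h1, ← map_mul, ← mul_assoc, zeta_mul_zeta, one_mul]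
    rw [h1, h4]
    ring
  · intro g
    unfold mf
    have h1 : m (k2 * g) = m (zeta * g) := by
      have h2 : m (zeta * k2) = 1 := by
        rw [← map_one m, eq_comm, m_eq_iff, mem_K]
        simp
      have h3 : k2 * g = zeta * (zeta * k2) * g := by
        rw [← mul_assoc zeta zeta k2, zeta_mul_zeta, one_mul]
      rw [h3, map_mul, map_mul, h2, mul_one, map_mul]
    have h4 : m (zeta * (k2 * g)) = m g := by
      rw [map_mul, h1, ← map_mul, ← mul_assoc, zeta_mul_zeta, one_mul]
    rw [h1, h4]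
    ring

/-- The sum `kappa1 + kappa2 - 2`. -/
noncomputable def P : MonoidAlgebra ℤ G :=
  (∑ i, MonoidAlgebra.single (m (kap1 i)) 1 + ∑ i, MonoidAlgebra.single (m (kap2 i)) 1) -
    MonoidAlgebra.single 1 2

/-- The element `S`. -/
noncomputable def S : MonoidAlgebra ℤ G := P - P * MonoidAlgebra.single (m zeta) 1

lemma coeff_sub' (a b : MonoidAlgebra ℤ G) (g : G) :
    (a - b).coeff g = a.coeff g - b.coeff g := rfl

lemma coeff_add' (a b : MonoidAlgebra ℤ G) (g : G) :
    (a + b).coeff g = a.coeff g + b.coeff g := rfl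

lemma coeff_smul' (n : ℤ) (b : MonoidAlgebra ℤ G) (g : G) :
    (n • b).coeff g = n * b.coeff g := rfl

lemma mul_P_apply (x : MonoidAlgebra ℤ G) (g : Gt) :
    (x * P).coeff (m g) = (∑ i, x.coeff (m (g * (kap1 i)⁻¹)) +
      ∑ i, x.coeff (m (g * (kap2 i)⁻¹))) - 2 * x.coeff (m g) := by
  unfold P
  rw [mul_sub, mul_add, Finset.mul_sum, Finset.mul_sum]
  have hsum : ∀ (f : Fin 8 → MonoidAlgebra ℤ G) (g : G),
      (∑ i, f i).coeff g = ∑ i, (f i).coeff g := by
    intro f g
    rw [MonoidAlgebra.coeff_sum]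
    exact Finsupp.finsetSum_apply _ _ _
  rw [coeff_sub', coeff_add', hsum, hsum]
  simp only [MonoidAlgebra.coeff_mul_single_apply, ← map_inv, ← map_mul, mul_one, inv_one]
  ring

lemma mul_S_apply (x : MonoidAlgebra ℤ G) (g : Gt) :
    (x * S).coeff (m g) = T (mf x) g := by
  unfold S
  rw [mul_sub, ← mul_assoc, coeff_sub', MonoidAlgebra.coeff_mul_single_apply, ← map_inv,
    ← map_mul, mul_P_apply, mul_P_apply, mul_one]
  have h1 : zeta⁻¹ = zeta := inv_eq_of_mul_eq_one_left zeta_mul_zeta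
  rw [h1, ← zeta_comm]
  unfold T mf
  simp only [Finset.sum_sub_distrib, mul_assoc]
  ring

lemma one_mf : mf 1 ⟨0, 1, 1, 0, false⟩ = 1 ∧ mf 1 ⟨0, c0, 1, 0, false⟩ = 0 ∧
    mf 1 ⟨0, c0, c0, 0, false⟩ = 0 := by
  have h : ∀ g : Gt, (1 : MonoidAlgebra ℤ G).coeff (m g) =
      if g = 1 ∨ g = zeta * k1 ∨ g = zeta * k2 ∨ g = k1 * k2 then 1 else 0 := by
    intro g
    have h1 : (g = 1 ∨ g = zeta * k1 ∨ g = zeta * k2 ∨ g = k1 * k2) ↔ m g = 1 := by
      rw [← mem_K, ← map_one m, eq_comm, m_eq_iff, inv_one, one_mul]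
    rw [MonoidAlgebra.one_def]
    classical
    rw [MonoidAlgebra.coeff_single, Finsupp.single_apply]
    simp only [h1, eq_comm]
  unfold mf
  rw [h, h, h, h, h, h]
  decide +kernel

lemma good_one : Good (mf 1) := good_mf 1 (Subring.one_mem _)

lemma S_apply (g : Gt) : S.coeff (m g) = sig1 g := by
  have h := mul_S_apply 1 g
  rw [one_mul, T_formula good_one] at h
  rw [h]
  obtain ⟨h1, h2, h3⟩ := one_mf
  unfold Mf Lf
  rw [h1, h2, h3]
  ring

lemma sig1_comm (g h : Gt) : sig1 (g * h) = sig1 (h * g) := by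
  have hu : ∀ x y : L, u (x * y) = u (y * x) := by
    intro x y
    rw [← u_conj y (x * y)]
    congr 1
    group
  have hw : ∀ x y : L, w (x * y) = w (y * x) := by
    intro x y
    rw [← w_conj y (x * y)]
    congr 1
    group
  have hodd : ∀ x y : L, par x + par y = 1 → u (x * y) = 0 ∧ w (x * y) = 0 := by
    intro x y hxy
    rw [← par_mul] at hxy
    exact ⟨u_odd _ hxy, w_odd _ hxy⟩
  have h2 : ∀ x y : ZMod 2, x = y ∨ x + y = 1 := by decide
  obtain ⟨s, a, b, e, p⟩ := g
  obtain ⟨s', a', b', e', p'⟩ := h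
  cases p <;> cases p'
  · rw [Gt.mul_false, Gt.mul_false]
    unfold sig1
    simp only [and_true]
    rw [add_comm e' e]
    split_ifs with he
    · rcases h2 (par a) (par a') with h3 | h3
      · rcases h2 (par b) (par b') with h4 | h4
        · rw [hu a a', hw a a', hu b b', hw b b', h3, h4]
          congr 2
          ring
        · obtain ⟨h5, h6⟩ := hodd _ _ h4
          rw [add_comm] at h4
          obtain ⟨h7, h8⟩ := hodd _ _ h4
          rw [h5, h6, h7, h8]
          ring
      · obtain ⟨h5, h6⟩ := hodd _ _ h3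
        rw [add_comm] at h3
        obtain ⟨h7, h8⟩ := hodd _ _ h3
        rw [h5, h6, h7, h8]
        ring
    · rfl
  · rw [Gt.mul_false, Gt.mul_true]
    simp [sig1]
  · rw [Gt.mul_false, Gt.mul_true]
    simp [sig1]
  · rw [Gt.mul_true, Gt.mul_true]
    unfold sig1
    simp only [Bool.not_true, and_true]
    rw [add_comm e' e]
    split_ifs with he
    · have he' : e = e' := by
        revert he
        clear * -
        revert e e'
        decide
      rcases h2 (par a) (par b') with h3 | h3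
      · rcases h2 (par b) (par a') with h4 | h4
        · rw [hu a b', hw a b', hu b a', hw b a', h3, h4, he']
          have h5 : s + s' + par a' * par b' + e' + par a' * par b' =
              s' + s + par b' * par a' + e' + par b' * par a' := by ring
          rw [h5]
          ring
        · obtain ⟨h5, h6⟩ := hodd _ _ h4
          rw [add_comm] at h4
          obtain ⟨h7, h8⟩ := hodd _ _ h4
          rw [h5, h6, h7, h8]
          ring
      · obtain ⟨h5, h6⟩ := hodd _ _ h3
        rw [add_comm] at h3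
        obtain ⟨h7, h8⟩ := hodd _ _ h3
        rw [h5, h6, h7, h8]
        ring
    · rfl

lemma S_mem : S ∈ Subring.center (MonoidAlgebra ℤ G) := by
  rw [mem_center_iff]
  intro g h
  obtain ⟨g, rfl⟩ := m_surj g
  obtain ⟨h, rfl⟩ := m_surj h
  rw [← map_mul, ← map_mul, S_apply, S_apply, sig1_comm]

lemma ext_m {x y : MonoidAlgebra ℤ G} (h : ∀ g, x.coeff (m g) = y.coeff (m g)) : x = y := by
  ext g
  obtain ⟨g, rfl⟩ := m_surj g
  exact h g

lemma sig1_zeta (g : Gt) : sig1 (zeta * g) = - sig1 g := by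
  obtain ⟨s, a, b, e, p⟩ := g
  rw [zeta_mul]
  unfold sig1
  have h : ∀ s : ZMod 2, sg (1 + s) = - sg s := by decide
  simp only [h]
  split_ifs <;> ring

lemma sig2_zeta (g : Gt) : sig2 (zeta * g) = - sig2 g := by
  obtain ⟨s, a, b, e, p⟩ := g
  rw [zeta_mul]
  unfold sig2
  have h : ∀ s : ZMod 2, sg (1 + s) = - sg s := by decide
  simp only [h]
  split_ifs <;> ring

lemma mf_S (g : Gt) : mf S g = 2 * sig1 g := by
  unfold mf
  rw [S_apply, S_apply, sig1_zeta]
  ring

lemma Lf_S : Lf (mf S) = 2 := by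
  unfold Lf
  rw [mf_S, mf_S]
  decide +kernel

lemma Mf_S : Mf (mf S) = 0 := by
  unfold Mf
  rw [mf_S, mf_S, mf_S]
  decide +kernel

lemma SS_apply (g : Gt) : (S * S).coeff (m g) = 4 * sig2 g := by
  rw [mul_S_apply, T_formula (good_mf S S_mem), Mf_S, Lf_S]
  ring

lemma SS_mem : S * S ∈ Subring.center (MonoidAlgebra ℤ G) := Subring.mul_mem _ S_mem S_mem

lemma mf_SS (g : Gt) : mf (S * S) g = 8 * sig2 g := by
  unfold mf
  rw [SS_apply, SS_apply, sig2_zeta]
  ring

lemma Lf_SS : Lf (mf (S * S)) = 0 := by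
  unfold Lf
  rw [mf_SS, mf_SS]
  decide +kernel

lemma Mf_SS : Mf (mf (S * S)) = 144 := by
  unfold Mf
  rw [mf_SS, mf_SS, mf_SS]
  decide +kernel

/-- The functional `L` on the group ring. -/
def LL (x : MonoidAlgebra ℤ G) : ℤ := Lf (mf x)

/-- The functional `M` on the group ring. -/
def MM (x : MonoidAlgebra ℤ G) : ℤ := Mf (mf x)

lemma LL_add (x y : MonoidAlgebra ℤ G) : LL (x + y) = LL x + LL y := by
  unfold LL Lf mf
  simp only [coeff_add']
  ring

lemma LL_sub (x y : MonoidAlgebra ℤ G) : LL (x - y) = LL x - LL y := by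
  unfold LL Lf mf
  simp only [coeff_sub']
  ring

lemma LL_smul (n : ℤ) (y : MonoidAlgebra ℤ G) : LL (n • y) = n * LL y := by
  unfold LL Lf mf
  simp only [coeff_smul']
  ring

lemma LL_S : LL S = 2 := Lf_S

lemma key (x : MonoidAlgebra ℤ G) (hx : x ∈ Subring.center (MonoidAlgebra ℤ G)) :
    (2 : ℤ) • (x * S) = (2 * MM x) • S + LL x • (S * S) := by
  apply ext_m
  intro g
  rw [coeff_add', coeff_smul', coeff_smul', coeff_smul', mul_S_apply, T_formula (good_mf x hx),
    S_apply, SS_apply]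
  unfold MM LL
  ring

lemma SSS : S * S * S = (144 : ℤ) • S := by
  apply ext_m
  intro g
  rw [coeff_smul', mul_S_apply, T_formula (good_mf _ SS_mem), Mf_SS, Lf_SS, S_apply]
  ring

lemma LL_mul (x y : MonoidAlgebra ℤ G) (hx : x ∈ Subring.center (MonoidAlgebra ℤ G))
    (hy : y ∈ Subring.center (MonoidAlgebra ℤ G)) :
    LL (x * y) = LL x * MM y + MM x * LL y := by
  have h1 := key (x * y) (Subring.mul_mem _ hx hy)
  have h2 := key y hy
  have h3 := key x hx
  have h4 : (4 : ℤ) • (x * y * S) = (2 * MM y) • ((2 * MM x) • S + LL x • (S * S)) +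
      LL y • (((2 * MM x) • S + LL x • (S * S)) * S) := by
    rw [← h3]
    have h5 : (4 : ℤ) • (x * y * S) = (2 : ℤ) • (x * ((2 : ℤ) • (y * S))) := by
      rw [mul_smul_comm, smul_smul, mul_assoc]
      norm_num
    rw [h5, h2, mul_add, mul_smul_comm, mul_smul_comm, smul_add, smul_mul_assoc, mul_assoc x S S,
      smul_comm, smul_comm (2 : ℤ) (LL y)]
  have h6 := congrArg (fun v : MonoidAlgebra ℤ G => v.coeff (m ⟨0, c0, c0, 0, false⟩)) h4
  have h7 := congrArg (fun v : MonoidAlgebra ℤ G => v.coeff (m ⟨0, c0, c0, 0, false⟩)) h1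
  simp only [add_mul, smul_mul_assoc, SSS, coeff_add', coeff_smul', S_apply, SS_apply] at h6 h7
  have h8 : sig1 ⟨0, c0, c0, 0, false⟩ = 0 := by decide +kernel
  have h9 : sig2 ⟨0, c0, c0, 0, false⟩ = 1 := by decide +kernel
  rw [h8, h9] at h6 h7
  linarith

/-- The exotic automorphism on elements. -/
noncomputable def phi (x : MonoidAlgebra ℤ G) : MonoidAlgebra ℤ G := x - LL x • S

lemma phi_mem (x : MonoidAlgebra ℤ G) (hx : x ∈ Subring.center (MonoidAlgebra ℤ G)) :
    phi x ∈ Subring.center (MonoidAlgebra ℤ G) :=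
  Subring.sub_mem _ hx (Subring.zsmul_mem _ S_mem _)

lemma phi_phi (x : MonoidAlgebra ℤ G) : phi (phi x) = x := by
  unfold phi
  rw [LL_sub, LL_smul, LL_S, sub_sub, ← add_smul]
  have : LL x + (LL x - LL x * 2) = 0 := by ring
  rw [this, zero_smul, sub_zero]

lemma phi_add (x y : MonoidAlgebra ℤ G) : phi (x + y) = phi x + phi y := by
  unfold phi
  rw [LL_add, add_smul]
  abel

lemma phi_mul (x y : MonoidAlgebra ℤ G) (hx : x ∈ Subring.center (MonoidAlgebra ℤ G))
    (hy : y ∈ Subring.center (MonoidAlgebra ℤ G)) : phi (x * y) = phi x * phi y := by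
  have h1 := key x hx
  have h2 := key y hy
  have hSy : S * y = y * S := (Subring.mem_center_iff.1 hy S)
  unfold phi
  rw [LL_mul x y hx hy, sub_mul, mul_sub, mul_sub, smul_mul_assoc, smul_mul_assoc, mul_smul_comm,
    mul_smul_comm, hSy]
  apply ext_m
  intro g
  have h3 := congrArg (fun v : MonoidAlgebra ℤ G => v.coeff (m g)) h1
  have h4 := congrArg (fun v : MonoidAlgebra ℤ G => v.coeff (m g)) h2
  simp only [coeff_add', coeff_smul', coeff_sub'] at h3 h4 ⊢
  have h5 : 2 * (((LL x * MM y + MM x * LL y)) * S.coeff (m g)) =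
      LL y * (2 * (x * S).coeff (m g)) + LL x * (2 * (y * S).coeff (m g)) -
        2 * (LL x * (LL y * (S * S).coeff (m g))) := by
    rw [h3, h4]
    ring
  linarith

/-- The exotic automorphism. -/
noncomputable def sigma : ↥(Subring.center (MonoidAlgebra ℤ G)) ≃+*
    ↥(Subring.center (MonoidAlgebra ℤ G)) where
  toFun x := ⟨phi x, phi_mem x x.2⟩
  invFun x := ⟨phi x, phi_mem x x.2⟩
  left_inv x := Subtype.ext (phi_phi _)
  right_inv x := Subtype.ext (phi_phi _)
  map_mul' x y := Subtype.ext (phi_mul _ _ x.2 y.2)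
  map_add' x y := Subtype.ext (phi_add _ _)

end Pool.Agent.Berman
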