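import Mathlib
import Pool.Agent.Lib_helper30.Berman.Quot

/-!
# The exotic automorphism does not permute the class sums up to sign
-/

set_option autoImplicit false

namespace Pool.Agent.Berman

open L

open Classical in
/-- The class sum of a conjugacy class. -/
noncomputable def classSum (c : ConjClasses G) : MonoidAlgebra ℤ G :=
  ∑ g ∈ Finset.univ.filter (fun g : G => ConjClasses.mk g = c), MonoidAlgebra.single g (1 : ℤ)

open Classical in
lemma coeff_classSum (c : ConjClasses G) (k : G) :
    (classSum c).coeff k = if ConjClasses.mk k = c then 1 else 0 := by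
  unfold classSum
  rw [MonoidAlgebra.coeff_sum, Finsupp.finsetSum_apply]
  simp only [MonoidAlgebra.coeff_single, Finsupp.single_apply]
  rw [Finset.sum_ite_eq']
  simp

lemma classSum_mem (c : ConjClasses G) :
    classSum c ∈ Subring.center (MonoidAlgebra ℤ G) := by
  rw [mem_center_iff]
  intro g h
  rw [coeff_classSum, coeff_classSum]
  have h1 : ConjClasses.mk (g * h) = ConjClasses.mk (h * g) := by
    rw [ConjClasses.mk_eq_mk_iff_isConj, isConj_iff]
    exact ⟨g⁻¹, by group⟩
  rw [h1]

lemma classSum_eq (c : ConjClasses G) (inst : DecidablePred fun g : G => ConjClasses.mk g = c) :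
    ∑ g ∈ @Finset.filter G (fun g : G => ConjClasses.mk g = c) inst Finset.univ,
      MonoidAlgebra.single g (1 : ℤ) = classSum c := by
  unfold classSum
  congr!

/-- The chosen element of the class `B`. -/
def bb : Gt := ⟨0, c0, 1, 0, false⟩

lemma sig1_eq_of_mk {g h : Gt} (hgh : ConjClasses.mk (m g) = ConjClasses.mk (m h)) :
    sig1 g = sig1 h := by
  rw [ConjClasses.mk_eq_mk_iff_isConj, isConj_iff] at hgh
  obtain ⟨c, hc⟩ := hgh
  rw [← S_apply g, ← S_apply h, ← hc, (mem_center_iff S).1 S_mem, ← mul_assoc, inv_mul_cancel,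
    one_mul]

lemma coeff_classSum_bb {g : Gt} (hg : sig1 g ≠ 1) :
    (classSum (ConjClasses.mk (m bb))).coeff (m g) = 0 := by
  rw [coeff_classSum, if_neg]
  intro h
  apply hg
  rw [sig1_eq_of_mk h]
  decide +kernel

lemma LL_classSum : LL (classSum (ConjClasses.mk (m bb))) = 1 := by
  unfold LL Lf mf
  have h1 : (classSum (ConjClasses.mk (m bb))).coeff (m ⟨0, c0, 1, 0, false⟩) = 1 := by
    rw [coeff_classSum]
    exact if_pos rfl
  rw [h1, coeff_classSum_bb (show sig1 ⟨0, c0, c0, 0, false⟩ ≠ 1 by decide +kernel),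
    coeff_classSum_bb (show sig1 (zeta * ⟨0, c0, c0, 0, false⟩) ≠ 1 by decide +kernel),
    coeff_classSum_bb (show sig1 (zeta * ⟨0, c0, 1, 0, false⟩) ≠ 1 by decide +kernel)]
  norm_num

lemma phi_classSum_one :
    (phi (classSum (ConjClasses.mk (m bb)))).coeff (m 1) = 2 := by
  unfold phi
  rw [coeff_sub', coeff_smul', LL_classSum,
    coeff_classSum_bb (show sig1 1 ≠ 1 by decide +kernel), S_apply]
  decide +kernel

theorem final :
    ¬ ∃ π : Equiv.Perm (ConjClasses G), ∃ ε : ConjClasses G → ℤ,
      (∀ c, ε c = 1 ∨ ε c = -1) ∧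
      ∀ (c : ConjClasses G) (x : ↥(Subring.center (MonoidAlgebra ℤ G))),
        (x : MonoidAlgebra ℤ G) = classSum c →
        ((sigma x : ↥(Subring.center (MonoidAlgebra ℤ G))) : MonoidAlgebra ℤ G) =
          ε c • classSum (π c) := by
  rintro ⟨π, ε, hε, h⟩
  have h1 := h (ConjClasses.mk (m bb)) ⟨classSum (ConjClasses.mk (m bb)), classSum_mem _⟩ rfl
  have h2 : phi (classSum (ConjClasses.mk (m bb))) =
    ε (ConjClasses.mk (m bb)) • classSum (π (ConjClasses.mk (m bb))) := h1
  have h3 := phi_classSum_one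
  rw [h2, coeff_smul', coeff_classSum] at h3
  rcases hε (ConjClasses.mk (m bb)) with h4 | h4 <;> rw [h4] at h3 <;> split_ifs at h3 <;>
    omega

end Pool.Agent.Berman
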